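import Pool.Agent.H3.AM.Basic

/-!
# Alperin–McKay: module C3, existence of defect groups
-/

open scoped Classical ComplexConjugate

namespace AMc

/-- a Sylow `ℓ`-subgroup of the centraliser of `x` in `N` -/
theorem C3.exists_sylow {ℓ : ℕ} [Fact ℓ.Prime] {Γ : Type} [Group Γ] [Fintype Γ]
    (N : Subgroup Γ) (x : Γ) : ∃ D : Subgroup Γ, IsPGroup ℓ D ∧ D ≤ N ∧
      D ≤ Subgroup.centralizer {x} ∧ ¬ ℓ ∣ D.relIndex (Subgroup.centralizer {x} ⊓ N) := by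
  set C := Subgroup.centralizer {x} ⊓ N with hC
  obtain ⟨S⟩ : Nonempty (Sylow ℓ C) := inferInstance
  have hle : (S : Subgroup C).map C.subtype ≤ C := Subgroup.map_subtype_le _
  refine ⟨(S : Subgroup C).map C.subtype, S.isPGroup'.map _, hle.trans inf_le_right,
    hle.trans inf_le_left, ?_⟩
  have h1 : ((S : Subgroup C).map C.subtype).relIndex C = (S : Subgroup C).index := by
    show (((S : Subgroup C).map C.subtype).subgroupOf C).index = _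
    congr 1
    exact Subgroup.comap_map_eq_self_of_injective Subtype.val_injective _
  rw [h1]
  exact S.not_dvd_index

theorem C3.csum_supp {F : Type} [Field F] {ℓ : ℕ} [Fact ℓ.Prime] {Γ : Type} [Group Γ] [Fintype Γ]
    {N D : Subgroup Γ} {x : Γ} (hx : x ∈ N) (hD : IsPGroup ℓ D) (hDN : D ≤ N)
    (hDx : D ≤ Subgroup.centralizer {x})
    (hind : ¬ ℓ ∣ D.relIndex (Subgroup.centralizer {x} ⊓ N)) :
    ∀ g, (csum F (cls N x)).coeff g ≠ 0 → g ∈ SD ℓ N (conjs N D) := by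
  intro g hg
  rw [coeff_csum] at hg
  have hg' : g ∈ cls N x := by
    by_contra h
    rw [if_neg h] at hg
    exact hg rfl
  obtain ⟨u, hu, rfl⟩ := mem_cls.1 hg'
  refine SD_conj (nor_iff (nor_self N) hu) ?_ (mem_SD_of_sylow hD hDN hx hDx hind)
  rintro _ ⟨v, hv, rfl⟩
  refine ⟨u * v, N.mul_mem hu hv, ?_⟩
  rw [Subgroup.map_map]
  congr 1
  ext a
  simp [MulAut.conj_apply, mul_assoc]

theorem c3 (_h1 : T_C1) (h2 : T_C2) : T_C3 := by
  intro F _ ℓ _ _ Γ _ _ N h hh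
  let P : ℕ → Prop := fun n => ∃ (x : Γ) (D : Subgroup Γ), x ∈ N ∧ h (csum F (cls N x)) ≠ 0 ∧
    IsPGroup ℓ D ∧ D ≤ N ∧ D ≤ Subgroup.centralizer {x} ∧
    ¬ ℓ ∣ D.relIndex (Subgroup.centralizer {x} ⊓ N) ∧ Nat.card D = n
  have hP : ∃ n, P n := by
    obtain ⟨x, hx, _, hx2⟩ := hh.exists_cls le_rfl le_rfl (nor_self N) (ZA F N N).one_mem
      (by rw [hh.map_one]; exact one_ne_zero)
    obtain ⟨D, hD⟩ := C3.exists_sylow (ℓ := ℓ) N x
    exact ⟨_, x, D, hx, hx2, hD.1, hD.2.1, hD.2.2.1, hD.2.2.2, rfl⟩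
  obtain ⟨x, D, hx, hxh, hD, hDN, hDx, hind, hcard⟩ := Nat.find_spec hP
  have hmin : ∀ m, P m → Nat.card D ≤ m := by
    intro m hm
    rw [hcard]
    exact Nat.find_min' hP hm
  refine ⟨D, hD, hDN, ⟨x, hx, hxh, hDx, hind⟩, ?_⟩
  intro y hy hyh
  obtain ⟨S, hS, hSN, hSy, hSind⟩ := C3.exists_sylow (ℓ := ℓ) N y
  set z := csum F (cls N x) with hz
  set w := csum F (cls N y) with hw
  have hzm : z ∈ ZA F N N := csum_cls_mem_self hx
  have hwm : w ∈ ZA F N N := csum_cls_mem_self hy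
  have hzw : h (z * w) ≠ 0 := by
    rw [hh.map_mul z hzm w hwm]
    exact mul_ne_zero hxh hyh
  obtain ⟨c, hcN, hc1, hc2⟩ := hh.exists_cls le_rfl le_rfl (nor_self N)
    ((ZA F N N).mul_mem hzm hwm) hzw
  have hcD : c ∈ SD ℓ N (conjs N D) :=
    h2 F ℓ Γ N _ z hzm w hwm (C3.csum_supp hx hD hDN hDx hind) c hc1
  have hcS : c ∈ SD ℓ N (conjs N S) := by
    rw [ZA_mul_comm le_rfl hzm hwm] at hc1
    exact h2 F ℓ Γ N _ w hwm z hzm (C3.csum_supp hy hS hSN hSy hSind) c hc1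
  obtain ⟨R, hR, hRN, hRc, hRind⟩ := C3.exists_sylow (ℓ := ℓ) N c
  obtain ⟨_, ⟨u, hu, rfl⟩, hRD⟩ := hcD.2 R hR hRN hRc
  obtain ⟨_, ⟨v, hv, rfl⟩, hRS⟩ := hcS.2 R hR hRN hRc
  have hle : Nat.card D ≤ Nat.card R := hmin _ ⟨c, R, hcN, hc2, hR, hRN, hRc, hRind, rfl⟩
  have hcardmap : Nat.card (D.map (MulAut.conj u).toMonoidHom) = Nat.card D :=
    Subgroup.card_map_of_injective (MulAut.conj u).injective
  have heq : R = D.map (MulAut.conj u).toMonoidHom :=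
    Subgroup.eq_of_le_of_card_ge hRD (by rw [hcardmap]; exact hle)
  refine ⟨v⁻¹ * u, N.mul_mem (N.inv_mem hv) hu, fun d hd => ?_⟩
  have h3 : u * d * u⁻¹ ∈ S.map (MulAut.conj v).toMonoidHom := by
    apply hRS
    rw [heq]
    exact ⟨d, hd, rfl⟩
  obtain ⟨s, hs, hs2⟩ := h3
  have h4 : v⁻¹ * u * d * (v⁻¹ * u)⁻¹ = s := by
    have h5 : v * s * v⁻¹ = u * d * u⁻¹ := hs2
    have h6 : s = v⁻¹ * (v * s * v⁻¹) * v := by group
    rw [h6, h5]; group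
  rw [h4]
  exact hSy hs

end AMc
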